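import Pool.Agent.QUD.StmtsX

/-!
# Squad QUD (MP_5b0138_an), row FSX

The equation at the first level, arbitrary partner.
-/

set_option autoImplicit false

namespace Pool.Agent.QUD.H99

open MeasureTheory Complex Filter Topology ProbabilityTheory Pool.Agent.H16Iso Pool.Agent.H62T
open Pool.Agent.H16F (Sublin ind)
open Pool.Agent.AEU Pool.Agent.XQ

theorem fsx_small_add {L : ℝ} {f g : ℝ → ℝ} (hf : Small L f) (hg : Small L g) :
    Small L fun κ => f κ + g κ := by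
  obtain ⟨C, δ, hδ, h⟩ := hf
  obtain ⟨C', δ', hδ', h'⟩ := hg
  refine ⟨|C| + |C'|, min δ δ', lt_min hδ hδ', ?_⟩
  filter_upwards [h, h', eventually_ge_atTop (0 : ℝ)] with κ h1 h2 h3
  have e1 : Real.exp (-((L + δ) * κ)) ≤ Real.exp (-((L + min δ δ') * κ)) := by
    apply Real.exp_le_exp.2
    have : (L + min δ δ') * κ ≤ (L + δ) * κ :=
      mul_le_mul_of_nonneg_right (by linarith [min_le_left δ δ']) h3
    linarith
  have e2 : Real.exp (-((L + δ') * κ)) ≤ Real.exp (-((L + min δ δ') * κ)) := by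
    apply Real.exp_le_exp.2
    have : (L + min δ δ') * κ ≤ (L + δ') * κ :=
      mul_le_mul_of_nonneg_right (by linarith [min_le_right δ δ']) h3
    linarith
  have a1 : C * Real.exp (-((L + δ) * κ)) ≤ |C| * Real.exp (-((L + min δ δ') * κ)) :=
    (mul_le_mul_of_nonneg_right (le_abs_self C) (Real.exp_pos _).le).trans
      (mul_le_mul_of_nonneg_left e1 (abs_nonneg C))
  have a2 : C' * Real.exp (-((L + δ') * κ)) ≤ |C'| * Real.exp (-((L + min δ δ') * κ)) :=
    (mul_le_mul_of_nonneg_right (le_abs_self C') (Real.exp_pos _).le).trans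
      (mul_le_mul_of_nonneg_left e2 (abs_nonneg C'))
  calc |f κ + g κ| ≤ |f κ| + |g κ| := abs_add_le _ _
    _ ≤ (|C| + |C'|) * Real.exp (-((L + min δ δ') * κ)) := by linarith

theorem fsx_small_neg {L : ℝ} {f : ℝ → ℝ} (hf : Small L f) : Small L fun κ => -f κ := by
  obtain ⟨C, δ, hδ, h⟩ := hf
  exact ⟨C, δ, hδ, by simpa only [abs_neg] using h⟩

theorem fsx_part_mono {X : Finset HP} {L δ δ' : ℝ} {M N T : Finset (Finset HP)}
    {c : Finset HP → HP → ℝ} {K : Finset HP → ℂ → ℝ} (h : Part X L δ M N T c K)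
    (hd : δ' ≤ δ) : Part X L δ' M N T c K where
  sM := h.sM
  sN := h.sN
  nM := h.nM
  nN := h.nN
  torn := h.torn
  dMN := h.dMN
  dM := h.dM
  dN := h.dN
  tin := h.tin
  tinj := h.tinj
  loc := fun S hS f hf hl => h.loc S hS f hf (by linarith)
  out := fun S hS h1 h2 h3 h4 f hf hl => h.out S hS h1 h2 h3 h4 f hf (by linarith)
  far := fun F hF f hf hl => h.far F hF f hf (by linarith)
  par := fun a ha a' ha' h1 h2 h3 f hf hfit hl => h.par a ha a' ha' h1 h2 h3 f hf hfit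
    (by linarith)
  face := h.face

theorem fsx (pt1 : Pt1Stmt) (eq1 : Eq1Stmt) (lev : LevStmt) (lst : LstStmt) (sum : SumStmt)
    (lgx : LgxStmt) : FsxStmt := by
  intro fb P Q hP hcls pgQ hspec
  have pgP : Pg P := by
    obtain ⟨a, b, c, d, hc, hX⟩ := hP
    rw [hX]; exact hc.pg
  obtain ⟨L, hL, bP, bQ, hit⟩ := lev P Q pgP pgQ
  obtain ⟨δP, hδP, pP⟩ := pt1 P L pgP hL bP
  obtain ⟨δQ, hδQ, pQ⟩ := pt1 Q L pgQ hL bQ
  obtain ⟨JP, JQ, iP, iQ, sm⟩ := eq1 fb P Q L (min δP δQ) (N1 P L) (N1 Q L) _ _ _ _ hL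
    (lt_min hδP hδQ) pgP pgQ (fsx_part_mono pP (min_le_left _ _))
    (fsx_part_mono pQ (min_le_right _ _)) hspec
  have hJP : JP = 0 := by
    refine iP.1 fun a a' hf => ?_
    have hne : a ≠ a' := by
      intro e
      have h1 : a.1 = -a.1 := by rw [← hf.opp, ← e]
      have h2 : a.1 = 0 := by
        have h3 : (2 : ℂ) * a.1 = 0 := by linear_combination h1
        simpa using h3
      have h4 := pgP.unit a hf.mem
      rw [h2, norm_zero] at h4
      exact zero_ne_one h4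
    refine hcls.1 a hf.mem a' hf.mem' hne ?_
    rw [hf.opp]
    simp [dt]
    try ring
  obtain ⟨l, hl⟩ := lst P L hP hL bP
  obtain ⟨g, r, A, B, H, its⟩ := lgx Q L pgQ hL bQ
  refine ⟨L, hL, bP, bQ, hit, l, g, r, A, B, H, JQ, hl, its, iQ, ?_⟩
  have hs := fsx_small_add (fsx_small_add (fsx_small_neg (sum P L l hL hl)) sm) its.sm
  rw [hJP] at hs
  obtain ⟨C, δ, hδ, h⟩ := hs
  refine ⟨C, δ, hδ, ?_⟩
  filter_upwards [h] with κ hκ
  have e : gsum L l κ - (-(g : ℝ) * Real.exp (-(L * κ))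
        - (r : ℝ) / 2 * Real.exp (-(L * κ)) + SumA L A κ + SumB L B κ + SumH L H κ + JQ κ)
      = -(∑ S ∈ N1 P L, Lap (EZs S) κ - gsum L l κ)
        + ((∑ S ∈ N1 P L, Lap (EZs S) κ + (0 : ℝ → ℝ) κ)
          - (∑ S ∈ N1 Q L, Lap (EZs S) κ + JQ κ))
        + (∑ S ∈ N1 Q L, Lap (EZs S) κ - (-(g : ℝ) * Real.exp (-(L * κ))
          - (r : ℝ) / 2 * Real.exp (-(L * κ)) + SumA L A κ + SumB L B κ + SumH L H κ)) := by
    simp only [Pi.zero_apply]
    ring
  rw [e]
  exact hκ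

end Pool.Agent.QUD.H99
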