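import Pool.Agent.QUD.StmtsRB

/-!
# Squad QUD (MP_5b0138_an), row FXC (helper99): the flips are removed
-/

set_option autoImplicit false

namespace Pool.Agent.QUD.H99

open MeasureTheory Complex Filter Topology Pool.Agent.H16Iso Pool.Agent.H62T
open Pool.Agent.AEU Pool.Agent.XQ
open Pool.Agent.H1Gen (det CCW poly)

/-- Row FXC. -/
theorem fxc (hC : CgrStmt) (hW : FxwStmt) (hS : FxsStmt) : FxcStmt := by
  intro hD P Q hF hs
  obtain ⟨_, hsymm, htrans⟩ := hC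
  rcases hF with ⟨g, p0, p1, q0, q1, h1, h2, h3, h4, h5, h6, h7, h8, hP, hQ⟩ |
    ⟨h, B, δ, ε, h1, h2, h3, h4, h5, hP, hQ⟩
  · have key := hW g p0 p1 q0 q1 h1 h2 h3 h4 h5 h6 h7 h8 (fun k => by
      rw [← hD _ _ hP k, ← hD _ _ hQ k]; exact hs k)
    exact htrans _ _ _ (htrans _ _ _ hP key) (hsymm _ _ hQ)
  · have key := hS h B δ ε h1 h2 h3 h4 h5 (fun k => by
      rw [← hD _ _ hP k, ← hD _ _ hQ k]; exact hs k)
    exact htrans _ _ _ (htrans _ _ _ hP key) (hsymm _ _ hQ)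

end Pool.Agent.QUD.H99
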