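import Pool.Agent.QUD.StmtsR

set_option autoImplicit false

namespace Pool.Agent.QUD.H99

open Complex Pool.Agent.H16Iso Pool.Agent.QUD
open Pool.Agent.H1Gen (det CCW poly)

theorem ccw_of {w : Fin 4 → ℂ} (h1 : 0 < det (w 1 - w 0) (w 2 - w 0))
    (h2 : 0 < det (w 1 - w 0) (w 3 - w 0)) (h3 : 0 < det (w 2 - w 0) (w 3 - w 0))
    (h4 : 0 < det (w 2 - w 1) (w 3 - w 1)) : CCW w := by
  intro i j k hij hjk
  have h : ∀ i j k : Fin 4, i < j → j < k → (i = 0 ∧ j = 1 ∧ k = 2) ∨ (i = 0 ∧ j = 1 ∧ k = 3) ∨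
      (i = 0 ∧ j = 2 ∧ k = 3) ∨ (i = 1 ∧ j = 2 ∧ k = 3) := by decide
  rcases h i j k hij hjk with ⟨rfl, rfl, rfl⟩ | ⟨rfl, rfl, rfl⟩ | ⟨rfl, rfl, rfl⟩ | ⟨rfl, rfl, rfl⟩
  · exact h1
  · exact h2
  · exact h3
  · exact h4

theorem mir_eq (m : Fin 4) (v : Fin 4 → ℂ) : mir m v = mir 0 (fun j => v (j + m)) := by
  funext k
  have h : ∀ m k : Fin 4, m - k = 0 - k + m := by decide
  change (starRingEnd ℂ) (v (m - k)) = (starRingEnd ℂ) (v (0 - k + m))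
  rw [h m k]

theorem mir_zero_vals (u : Fin 4 → ℂ) : mir 0 u 0 = (starRingEnd ℂ) (u 0) ∧
    mir 0 u 1 = (starRingEnd ℂ) (u 3) ∧ mir 0 u 2 = (starRingEnd ℂ) (u 2) ∧
    mir 0 u 3 = (starRingEnd ℂ) (u 1) := ⟨rfl, rfl, rfl, rfl⟩

theorem en_mir (u : Fin 4 → ℂ) (i : Fin 4) : en (mir 0 u) i = en u (0 - i - 1) := by
  have h1 : ∀ i : Fin 4, 0 - (i + 1) = 0 - i - 1 := by decide
  have h2 : ∀ i : Fin 4, 0 - i - 1 + 1 = 0 - i := by decide
  change ‖(starRingEnd ℂ) (u (0 - (i + 1))) - (starRingEnd ℂ) (u (0 - i))‖ =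
    ‖u (0 - i - 1 + 1) - u (0 - i - 1)‖
  rw [h1, h2, ← map_sub, Complex.norm_conj, norm_sub_rev]

theorem sp_conj (z w : ℂ) : sp ((starRingEnd ℂ) z) ((starRingEnd ℂ) w) = sp z w := by
  simp only [sp, Complex.conj_re, Complex.conj_im]; ring

theorem sp_comm (z w : ℂ) : sp z w = sp w z := by
  simp only [sp]; ring

theorem an_mir (u : Fin 4 → ℂ) (i : Fin 4) : an (mir 0 u) i = an u (0 - i) := by
  have h1 : ∀ i : Fin 4, 0 - (i + 1) = 0 - i + 3 := by decide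
  have h2 : ∀ i : Fin 4, 0 - (i + 3) = 0 - i + 1 := by decide
  have e1 : mir 0 u (i + 1) - mir 0 u i = (starRingEnd ℂ) (u (0 - i + 3) - u (0 - i)) := by
    change (starRingEnd ℂ) (u (0 - (i + 1))) - (starRingEnd ℂ) (u (0 - i)) = _
    rw [h1, map_sub]
  have e2 : mir 0 u (i + 3) - mir 0 u i = (starRingEnd ℂ) (u (0 - i + 1) - u (0 - i)) := by
    change (starRingEnd ℂ) (u (0 - (i + 3))) - (starRingEnd ℂ) (u (0 - i)) = _
    rw [h2, map_sub]
  unfold an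
  rw [e1, e2, sp_conj, Complex.norm_conj, Complex.norm_conj, sp_comm, mul_comm ‖_‖ ‖_‖]

theorem cong_mir (hP : PcgStmt) (u : Fin 4 → ℂ) : Congruent (poly u) (poly (mir 0 u)) := by
  refine hP u (mir 0 u) Complex.conjLIE.toIsometryEquiv ?_
  have h : ∀ k : Fin 4, 0 - (0 - k) = k := by decide
  ext z
  constructor
  · rintro ⟨_, ⟨k, rfl⟩, rfl⟩
    refine ⟨0 - k, ?_⟩
    change (starRingEnd ℂ) (u (0 - (0 - k))) = (starRingEnd ℂ) (u k)
    rw [h]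
  · rintro ⟨k, rfl⟩
    exact ⟨u (0 - k), ⟨0 - k, rfl⟩, rfl⟩

theorem ref0 (hP : PcgStmt) (u : Fin 4 → ℂ) (hu : CCW u) :
    CCW (mir 0 u) ∧ Congruent (poly u) (poly (mir 0 u)) ∧ ar (mir 0 u) = ar u ∧
    pm (mir 0 u) = pm u ∧ ∀ i, en (mir 0 u) i = en u (0 - i - 1) ∧ an (mir 0 u) i = an u (0 - i) := by
  obtain ⟨m0, m1, m2, m3⟩ := mir_zero_vals u
  have g1 := hu 0 1 2 (by decide) (by decide)
  have g2 := hu 0 1 3 (by decide) (by decide)
  have g3 := hu 0 2 3 (by decide) (by decide)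
  have g4 := hu 1 2 3 (by decide) (by decide)
  simp only [det, Complex.sub_re, Complex.sub_im] at g1 g2 g3 g4
  refine ⟨ccw_of ?_ ?_ ?_ ?_, cong_mir hP u, ?_, ?_, fun i => ⟨en_mir u i, an_mir u i⟩⟩
  · rw [m0, m1, m2]
    simp only [det, Complex.sub_re, Complex.sub_im, Complex.conj_re, Complex.conj_im]
    linarith
  · rw [m0, m1, m3]
    simp only [det, Complex.sub_re, Complex.sub_im, Complex.conj_re, Complex.conj_im]
    linarith
  · rw [m0, m2, m3]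
    simp only [det, Complex.sub_re, Complex.sub_im, Complex.conj_re, Complex.conj_im]
    linarith
  · rw [m1, m2, m3]
    simp only [det, Complex.sub_re, Complex.sub_im, Complex.conj_re, Complex.conj_im]
    linarith
  · unfold ar
    rw [m0, m1, m2, m3]
    simp only [det, Complex.sub_re, Complex.sub_im, Complex.conj_re, Complex.conj_im]
    ring
  · unfold pm
    rw [en_mir, en_mir, en_mir, en_mir]
    have e0 : (0 - 0 - 1 : Fin 4) = 3 := by decide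
    have e1 : (0 - 1 - 1 : Fin 4) = 2 := by decide
    have e2 : (0 - 2 - 1 : Fin 4) = 1 := by decide
    have e3 : (0 - 3 - 1 : Fin 4) = 0 := by decide
    rw [e0, e1, e2, e3]
    ring

theorem ref (hP : PcgStmt) (hR : RotStmt) : RefStmt := by
  intro v m hv
  obtain ⟨r1, r2, r3, r4, r5⟩ := hR v hv m
  obtain ⟨s1, s2, s3, s4, s5⟩ := ref0 hP _ r1
  rw [mir_eq m v]
  refine ⟨s1, ?_, s3.trans r3, s4.trans r4, fun i => ?_⟩
  · rw [r2] at s2
    exact s2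
  · have h1 : ∀ m i : Fin 4, 0 - i - 1 + m = m - i - 1 := by decide
    have h2 : ∀ m i : Fin 4, 0 - i + m = m - i := by decide
    refine ⟨(s5 i).1.trans ?_, (s5 i).2.trans ?_⟩
    · rw [(r5 (0 - i - 1)).1, h1]
    · rw [(r5 (0 - i)).2, h2]

end Pool.Agent.QUD.H99
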